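import Mathlib
import Pool.Agent.H30R4.KI.FinPre
import Pool.Agent.H30R4.KI.T_FSK

/-!
MP_64d6f1_an: lifting `k`-independent pairs of unitaries, all `k`, all II_1 factors.

Project of helper30 (table h30k_tasks).  Formalised by helpers 19, 25, 56, 64, 66, 77, 166, 202,
214, 248, 298, 375, 401, 418, 479, 535, 594, 676, 742, 781, 793, 856, 930.
-/

set_option autoImplicit false

namespace Pool.Agent.Results.MP_64d6f1_an.AllK

open Pool.Agent.Helper278

/-- In the tracial ultrapowers of a II_1 factor, for every `k`, `k`-independent pairs of unitaries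
lift to `k`-independent pairs of unitaries. -/
theorem result {H : Type} [NormedAddCommGroup H] [InnerProductSpace ℂ H] [CompleteSpace H]
    (N : VonNeumannAlgebra H) (τ : Elt N → ℂ) (hN : IsIIOneFactor N τ) (k : ℕ) :
    Pool.Agent.H30K.LiftsStrong k (Elt N) τ :=
  Pool.Agent.H30K.final_of_fsk N τ hN k fun h hS hL => Pool.Agent.H30K.fsk h hS hL k

end Pool.Agent.Results.MP_64d6f1_an.AllK
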