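import Pool.Agent.H707F.LF.Wrap

/-!
Negative answer to the question on lifting `k`-independent unitaries, for `k = 3`.
-/

set_option autoImplicit false

namespace Pool.Agent.Results.MP_64d6f1_an.NoLift3

open Pool.Agent.Helper278 Pool.Agent.H707F.LF

theorem result : ∃ (K : Type) (_ : NormedAddCommGroup K) (_ : InnerProductSpace ℂ K)
    (_ : CompleteSpace K) (N : VonNeumannAlgebra K) (τ : Elt N → ℂ),
    IsTrace N τ ∧ Fails3 N τ ∧ ¬ Lifts3 N τ :=
  fails3

end Pool.Agent.Results.MP_64d6f1_an.NoLift3
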